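import Pool.Agent.Y229.CF.Stm
import Pool.Agent.W451.ND.K4

set_option autoImplicit false

/-! Part K4P: Nullstellensatz for the Newton polyhedron. -/

namespace Pool.Agent.Y393.CF

open MvPolynomial Pool.Agent.W425.ND Pool.Agent.W451.ND Pool.Agent.Y229.CF

variable {N r : ℕ}

lemma hulP_of_hul (v : Fin r → Fin N → ℕ) {m : ℕ} {c : Fin N →₀ ℕ} (h : Hul v m c) :
    HulP v m c := by
  obtain ⟨l, h1, h2, h3⟩ := h
  exact ⟨l, h1, h2, fun i => (h3 i).le⟩

lemma hulP_add (v : Fin r → Fin N → ℕ) {m m' : ℕ} {c c' : Fin N →₀ ℕ} (h : HulP v m c)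
    (h' : HulP v m' c') : HulP v (m + m') (c + c') := by
  obtain ⟨l, h1, h2, h3⟩ := h
  obtain ⟨l', h1', h2', h3'⟩ := h'
  refine ⟨fun j => l j + l' j, fun j => add_nonneg (h1 j) (h1' j), ?_, fun i => ?_⟩
  · rw [Finset.sum_add_distrib, h2, h2']
    push_cast
    rfl
  · have : ∑ j, (l j + l' j) * (v j i : ℝ) =
        ∑ j, l j * (v j i : ℝ) + ∑ j, l' j * (v j i : ℝ) := by
      rw [← Finset.sum_add_distrib]
      exact Finset.sum_congr rfl (fun j _ => by ring)
    rw [this, Finsupp.add_apply]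
    push_cast
    exact add_le_add (h3 i) (h3' i)

lemma supP_zero (v : Fin r → Fin N → ℕ) (m : ℕ) : SupP v m (0 : MvPolynomial (Fin N) ℂ) := by
  intro c hc
  exact absurd (coeff_zero c) hc

lemma supP_add (v : Fin r → Fin N → ℕ) (m : ℕ) {p q : MvPolynomial (Fin N) ℂ}
    (hp : SupP v m p) (hq : SupP v m q) : SupP v m (p + q) := by
  intro c hc
  rw [coeff_add] at hc
  by_cases h : coeff c p = 0
  · rw [h, zero_add] at hc
    exact hq c hc
  · exact hp c h

lemma supP_sum (v : Fin r → Fin N → ℕ) (m : ℕ) {ι : Type} (s : Finset ι)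
    (p : ι → MvPolynomial (Fin N) ℂ) (hp : ∀ i ∈ s, SupP v m (p i)) : SupP v m (∑ i ∈ s, p i) := by
  classical
  induction s using Finset.induction_on with
  | empty => simpa using supP_zero v m
  | insert a s ha ih =>
    rw [Finset.sum_insert ha]
    exact supP_add v m (hp a (Finset.mem_insert_self _ _))
      (ih fun i hi => hp i (Finset.mem_insert_of_mem hi))

lemma supP_mul (v : Fin r → Fin N → ℕ) {m m' : ℕ} {p q : MvPolynomial (Fin N) ℂ}
    (hp : SupP v m p) (hq : SupP v m' q) : SupP v (m + m') (p * q) := by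
  classical
  intro c hc
  rw [coeff_mul] at hc
  obtain ⟨x, hx, hne⟩ := Finset.exists_ne_zero_of_sum_ne_zero hc
  rw [← Finset.HasAntidiagonal.mem_antidiagonal.mp hx]
  exact hulP_add v (hp _ (left_ne_zero_of_mul hne)) (hq _ (right_ne_zero_of_mul hne))

lemma supP_phi (v : Fin r → Fin N → ℕ) (g : MvPolynomial (Fin r) ℂ) (k : ℕ) :
    SupP v k ((phi v g).coeff k) := fun c hc => hulP_of_hul v (supH_phi v g k c hc)

lemma supP_coeff_mul (v : Fin r → Fin N → ℕ) (P Q : Polynomial (MvPolynomial (Fin N) ℂ))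
    (hP : ∀ k, SupP v k (P.coeff k)) (hQ : ∀ k, SupP v k (Q.coeff k)) (k : ℕ) :
    SupP v k ((P * Q).coeff k) := by
  rw [Polynomial.coeff_mul]
  refine supP_sum v k _ _ fun x hx => ?_
  have e := Finset.HasAntidiagonal.mem_antidiagonal.mp hx
  rw [← e]
  exact supP_mul v (hP x.1) (hQ x.2)

/-- the new monomials -/
def Mon (v : Fin r → Fin N → ℕ) : Set (MvPolynomial (Fin r) ℂ) :=
  {p | ∃ n n' : Fin r → ℕ, ∑ j, n j = ∑ j, n' j ∧ (∀ i, ∑ j, n j * v j i ≤ ∑ j, n' j * v j i) ∧
    (∃ i, ∑ j, n j * v j i < ∑ j, n' j * v j i) ∧ p = ∏ j, X j ^ n' j}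

/-- the ideal -/
noncomputable def IP (v : Fin r → Fin N → ℕ) (a : Fin r → ℂ) : Ideal (MvPolynomial (Fin r) ℂ) :=
  Ideal.span ((Bin v ∪ Set.range (ell v a)) ∪ Mon v)

lemma phi_mon (v : Fin r → Fin N → ℕ) {p : MvPolynomial (Fin r) ℂ} (hp : p ∈ Mon v) :
    ∃ h : Fin N → Polynomial (MvPolynomial (Fin N) ℂ), (∀ i k, SupP v k ((h i).coeff k)) ∧
      phi v p = ∑ i, Polynomial.C (X i) * h i := by
  classical
  obtain ⟨n, n', h1, h2, ⟨i0, h3⟩, rfl⟩ := hp
  refine ⟨fun i => if i = i0 then Polynomial.monomial (∑ j, n' j)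
    (monomial (sv v n' - Finsupp.single i0 1) 1) else 0, ?_, ?_⟩
  · intro i k
    by_cases hi : i = i0
    · simp only [if_pos hi]
      rw [Polynomial.coeff_monomial]
      by_cases hk : ∑ j, n' j = k
      · rw [if_pos hk]
        intro c hc
        rw [coeff_monomial] at hc
        by_cases hc2 : sv v n' - Finsupp.single i0 1 = c
        · rw [← hc2, ← hk]
          refine ⟨fun j => (n j : ℝ), fun j => Nat.cast_nonneg _, ?_, fun i' => ?_⟩
          · rw [← h1]
            push_cast
            rfl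
          · have e1 : ∑ j, (n j : ℝ) * (v j i' : ℝ) = ((∑ j, n j * v j i' : ℕ) : ℝ) := by
              push_cast
              rfl
            rw [e1]
            have e2 : (sv v n' - Finsupp.single i0 1 : Fin N →₀ ℕ) i' =
                ∑ j, n' j * v j i' - (Finsupp.single i0 1 : Fin N →₀ ℕ) i' := rfl
            rw [e2]
            by_cases hi' : i' = i0
            · rw [hi', Finsupp.single_eq_same]
              exact_mod_cast Nat.le_sub_one_of_lt h3
            · rw [Finsupp.single_eq_of_ne hi', Nat.sub_zero]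
              exact_mod_cast h2 i'
        · rw [if_neg hc2] at hc
          exact absurd rfl hc
      · rw [if_neg hk]
        exact supP_zero v k
    · simp only [if_neg hi]
      rw [Polynomial.coeff_zero]
      exact supP_zero v k
  · rw [phi_prod, Finset.sum_eq_single i0]
    · simp only [if_true]
      rw [Polynomial.C_mul_monomial]
      congr 1
      rw [X, monomial_mul, one_mul]
      have e4 : sv v n' = Finsupp.single i0 1 + (sv v n' - Finsupp.single i0 1) := by
        refine Finsupp.ext fun i => ?_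
        have e2 : (Finsupp.single i0 1 + (sv v n' - Finsupp.single i0 1) : Fin N →₀ ℕ) i =
            (Finsupp.single i0 1 : Fin N →₀ ℕ) i +
              ((sv v n') i - (Finsupp.single i0 1 : Fin N →₀ ℕ) i) := rfl
        rw [e2]
        by_cases hi : i = i0
        · subst hi
          rw [Finsupp.single_eq_same]
          have e3 : (sv v n') i = ∑ j, n' j * v j i := rfl
          omega
        · rw [Finsupp.single_eq_of_ne hi]
          omega
      rw [← e4]
    · intro b _ hb
      simp only [if_neg hb, mul_zero]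
    · intro h
      exact absurd (Finset.mem_univ _) h

lemma mem_IP (v : Fin r → Fin N → ℕ) (a : Fin r → ℂ) {p : MvPolynomial (Fin r) ℂ}
    (hp : p ∈ IP v a) : ∃ (g : Option (Fin N) → MvPolynomial (Fin r) ℂ)
      (h : Fin N → Polynomial (MvPolynomial (Fin N) ℂ)), (∀ i k, SupP v k ((h i).coeff k)) ∧
      phi v p = ∑ o, phi v (g o) * (Polynomial.X * Polynomial.C (gen v a o)) +
        ∑ i, Polynomial.C (X i) * h i := by
  classical
  unfold IP at hp
  refine Submodule.span_induction (p := fun p _ =>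
      ∃ (g : Option (Fin N) → MvPolynomial (Fin r) ℂ)
      (h : Fin N → Polynomial (MvPolynomial (Fin N) ℂ)), (∀ i k, SupP v k ((h i).coeff k)) ∧
      phi v p = ∑ o, phi v (g o) * (Polynomial.X * Polynomial.C (gen v a o)) +
        ∑ i, Polynomial.C (X i) * h i) ?_ ?_ ?_ ?_ hp
  · rintro x ((hx | ⟨o, rfl⟩) | hx)
    · refine ⟨fun _ => 0, fun _ => 0, fun i k => ?_, ?_⟩
      · rw [Polynomial.coeff_zero]
        exact supP_zero v k
      · rw [phi_bin v hx]
        simp
    · refine ⟨fun o' => if o' = o then 1 else 0, fun _ => 0, fun i k => ?_, ?_⟩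
      · rw [Polynomial.coeff_zero]
        exact supP_zero v k
      · rw [phi_ell, Finset.sum_eq_single o]
        · simp
        · intro b _ hb
          simp [hb]
        · intro h
          exact absurd (Finset.mem_univ _) h
    · obtain ⟨h, h1, h2⟩ := phi_mon v hx
      refine ⟨fun _ => 0, h, h1, ?_⟩
      rw [h2]
      simp
  · refine ⟨fun _ => 0, fun _ => 0, fun i k => ?_, by simp⟩
    rw [Polynomial.coeff_zero]
    exact supP_zero v k
  · rintro x y _ _ ⟨g, h, hs, hg⟩ ⟨g', h', hs', hg'⟩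
    refine ⟨fun o => g o + g' o, fun i => h i + h' i, fun i k => ?_, ?_⟩
    · rw [Polynomial.coeff_add]
      exact supP_add v k (hs i k) (hs' i k)
    · rw [map_add, hg, hg']
      simp only [map_add, add_mul, mul_add, Finset.sum_add_distrib]
      exact add_add_add_comm _ _ _ _
  · rintro b x _ ⟨g, h, hs, hg⟩
    refine ⟨fun o => b * g o, fun i => phi v b * h i, fun i k => ?_, ?_⟩
    · exact supP_coeff_mul v _ _ (supP_phi v b) (hs i) k
    · have e1 : phi v b * ∑ o, phi v (g o) * (Polynomial.X * Polynomial.C (gen v a o)) =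
          ∑ o, phi v (b * g o) * (Polynomial.X * Polynomial.C (gen v a o)) := by
        rw [Finset.mul_sum]
        refine Finset.sum_congr rfl (fun o _ => ?_)
        rw [map_mul, mul_assoc]
      have e2 : phi v b * ∑ i, Polynomial.C (X i) * h i =
          ∑ i, Polynomial.C (X i) * (phi v b * h i) := by
        rw [Finset.mul_sum]
        exact Finset.sum_congr rfl (fun o _ => mul_left_comm _ _ _)
      rw [smul_eq_mul, map_mul, hg, mul_add, e1, e2]

lemma X_mem_radicalP (v : Fin r → Fin N → ℕ) (a : Fin r → ℂ)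
    (h : ∀ c : Fin r → ℂ, Toric v c → ToricP v c → ∑ j, a j * c j = 0 →
      (∀ i, ∑ j, a j * (v j i : ℂ) * c j = 0) → c = 0) (j : Fin r) :
    (X j : MvPolynomial (Fin r) ℂ) ∈ (IP v a).radical := by
  rw [← vanishingIdeal_zeroLocus_eq_radical (K := ℂ), mem_vanishingIdeal_iff]
  intro x hx
  have hx' : ∀ p ∈ IP v a, aeval x p = 0 := hx
  have h0 : x = 0 := by
    refine h x ?_ ?_ ?_ ?_
    · intro n n' h1 h2
      have := hx' (∏ j, X j ^ n j - ∏ j, X j ^ n' j)
        (Ideal.subset_span (Or.inl (Or.inl ⟨n, n', h1, h2, rfl⟩)))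
      rw [map_sub, map_prod, map_prod, sub_eq_zero] at this
      simpa using this
    · intro n n' h1 h2 h3
      have := hx' (∏ j, X j ^ n' j)
        (Ideal.subset_span (Or.inr ⟨n, n', h1, h2, h3, rfl⟩))
      rw [map_prod] at this
      simpa only [map_pow, aeval_X] using this
    · have := hx' (ell v a none) (Ideal.subset_span (Or.inl (Or.inr ⟨_, rfl⟩)))
      simpa [ell] using this
    · intro i
      have := hx' (ell v a (some i)) (Ideal.subset_span (Or.inl (Or.inr ⟨_, rfl⟩)))
      simpa [ell] using this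
  rw [h0]
  simp

theorem k4p : TaskK4P := by
  classical
  intro r N v a h
  have h1 : ∀ j : Fin r, ∃ q : ℕ, (X j : MvPolynomial (Fin r) ℂ) ^ q ∈ IP v a :=
    fun j => X_mem_radicalP v a h j
  choose q hq using h1
  refine ⟨∑ j, q j + 1, by omega, fun α hα => ?_⟩
  -- some exponent is large
  obtain ⟨j, hj⟩ : ∃ j, q j ≤ α j := by
    by_contra hcon
    push Not at hcon
    have : ∑ j, α j ≤ ∑ j, q j := Finset.sum_le_sum (fun j _ => (hcon j).le)
    omega
  have hmem : (∏ j, X j ^ α j : MvPolynomial (Fin r) ℂ) ∈ IP v a := by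
    rw [← Finset.mul_prod_erase _ _ (Finset.mem_univ j)]
    refine Ideal.mul_mem_right _ _ ?_
    rw [← Nat.sub_add_cancel hj, pow_add]
    exact Ideal.mul_mem_left _ _ (hq j)
  obtain ⟨g, H, hH, hg⟩ := mem_IP v a hmem
  rw [phi_prod, hα] at hg
  have hc := congrArg (fun P => Polynomial.coeff P (∑ j, q j + 1)) hg
  simp only [Polynomial.coeff_monomial, if_true, Polynomial.finsetSum_coeff,
    Polynomial.coeff_add, Polynomial.coeff_C_mul] at hc
  refine ⟨(phi v (g none)).coeff (∑ j, q j), fun i => (phi v (g (some i))).coeff (∑ j, q j),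
    fun i => (H i).coeff (∑ j, q j + 1), ?_, ?_, fun i => hH i _, ?_⟩
  · rw [Nat.add_sub_cancel]
    exact supP_phi v _ _
  · intro i
    rw [Nat.add_sub_cancel]
    exact supP_phi v _ _
  · have e1 : ∀ o, (phi v (g o) * (Polynomial.X * Polynomial.C (gen v a o))).coeff (∑ j, q j + 1)
        = (phi v (g o)).coeff (∑ j, q j) * gen v a o := by
      intro o
      rw [← mul_assoc, Polynomial.coeff_mul_C, Polynomial.coeff_mul_X]
    simp only [e1] at hc
    rw [Fintype.sum_option] at hc
    exact hc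

end Pool.Agent.Y393.CF
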